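import Pool.Agent.Helper60_SEP.Stmts

/-!
# Squad SEP, module HYP: sparse hypergraphs which are not 2-colourable
-/

set_option autoImplicit false

open Finset

namespace Pool.Agent.SEP60.H67

section count

variable {n N m : ℕ}

/-- the number of constant tuples -/
theorem const_card (M : ℕ) (hN : N = 2 * M) (χ : Fin N → Bool) :
    M ^ n ≤ (univ.filter (fun t : Fin n → Fin N => ∃ c, ∀ i, χ (t i) = c)).card := by
  classical
  have h1 : ∃ c : Bool, M ≤ (univ.filter (fun y : Fin N => χ y = c)).card := by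
    by_contra hcon
    push Not at hcon
    have h2 := hcon true
    have h3 := hcon false
    have h4 : (univ.filter (fun y : Fin N => χ y = true)).card +
        (univ.filter (fun y : Fin N => χ y = false)).card = N := by
      have h5 : (univ.filter (fun y : Fin N => χ y = false)) =
          univ.filter (fun y : Fin N => ¬ χ y = true) := by
        apply Finset.filter_congr
        intro y _
        simp
      rw [h5, Finset.card_filter_add_card_filter_not]
      simp
    omega
  obtain ⟨c, hc⟩ := h1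
  calc M ^ n ≤ (univ.filter (fun y : Fin N => χ y = c)).card ^ n := Nat.pow_le_pow_left hc n
    _ = (Fintype.piFinset (fun _ : Fin n => univ.filter (fun y : Fin N => χ y = c))).card := by
      rw [Fintype.card_piFinset]
      simp
    _ ≤ _ := by
      apply Finset.card_le_card
      intro t ht
      rw [Fintype.mem_piFinset] at ht
      rw [Finset.mem_filter]
      exact ⟨mem_univ _, c, fun i => (Finset.mem_filter.1 (ht i)).2⟩

/-- the number of constant members of the family -/
noncomputable def nc (χ : Fin N → Bool) (e : Fin m → Fin n → Fin N) : ℕ := by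
  classical
  exact (univ.filter (fun i => ∃ c, ∀ k, χ (e i k) = c)).card

theorem sum_nc (M : ℕ) (hN : N = 2 * M) (χ : Fin N → Bool) :
    ∑ e : Fin m → Fin n → Fin N, ((1 / 2 : ℝ)) ^ (nc χ e) ≤
      ((N : ℝ) ^ n * (1 - (1 / 2) ^ (n + 1))) ^ m := by
  classical
  have h1 : ∀ e : Fin m → Fin n → Fin N, ((1 / 2 : ℝ)) ^ (nc χ e) =
      ∏ i, (if ∃ c, ∀ k, χ (e i k) = c then (1 / 2 : ℝ) else 1) := by
    intro e
    rw [nc, Finset.prod_ite, Finset.prod_const, Finset.prod_const_one, mul_one]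
  rw [Finset.sum_congr rfl (fun e _ => h1 e)]
  have h2 : ∑ e : Fin m → Fin n → Fin N,
      ∏ i, (if ∃ c, ∀ k, χ (e i k) = c then (1 / 2 : ℝ) else 1) =
      (∑ t : Fin n → Fin N, (if ∃ c, ∀ k, χ (t k) = c then (1 / 2 : ℝ) else 1)) ^ m := by
    rw [Finset.sum_pow']
    simp
  rw [h2]
  apply pow_le_pow_left₀
  · apply Finset.sum_nonneg
    intro t _
    split_ifs <;> norm_num
  rw [Finset.sum_ite, Finset.sum_const, Finset.sum_const, nsmul_eq_mul, nsmul_eq_mul, mul_one]
  have h3 := const_card (n := n) M hN χ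
  have h4 := Finset.card_filter_add_card_filter_not (s := (univ : Finset (Fin n → Fin N)))
    (fun t : Fin n → Fin N => ∃ c, ∀ i, χ (t i) = c)
  have h5 : (univ : Finset (Fin n → Fin N)).card = N ^ n := by simp
  rw [h5] at h4
  have h6 : ((univ.filter (fun t : Fin n → Fin N => ∃ c, ∀ i, χ (t i) = c)).card : ℝ) +
      ((univ.filter (fun t : Fin n → Fin N => ¬ ∃ c, ∀ i, χ (t i) = c)).card : ℝ) =
      (N : ℝ) ^ n := by
    exact_mod_cast h4
  have h7 : (M : ℝ) ^ n ≤ ((univ.filter (fun t : Fin n → Fin N => ∃ c, ∀ i, χ (t i) = c)).card : ℝ)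
      := by
    exact_mod_cast h3
  have h8 : (N : ℝ) ^ n * (1 / 2) ^ (n + 1) = (M : ℝ) ^ n / 2 := by
    rw [hN, pow_succ]
    push_cast
    rw [mul_pow, div_pow, one_pow]
    field_simp
  have h9 : (N : ℝ) ^ n * (1 - (1 / 2) ^ (n + 1)) = (N : ℝ) ^ n - (M : ℝ) ^ n / 2 := by
    rw [mul_sub, h8, mul_one]
  rw [h9]
  linarith

/-- the union of the members of the family with index in `J` -/
noncomputable def un (J : Finset (Fin m)) (e : Fin m → Fin n → Fin N) : Finset (Fin N) :=
  J.biUnion (fun i => univ.image (e i))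

theorem card_bad (J : Finset (Fin m)) (s : ℕ) (hN : 1 ≤ N) :
    (univ.filter (fun e : Fin m → Fin n → Fin N => (un J e).card ≤ s)).card ≤
      N ^ s * ((s ^ n) ^ J.card * (N ^ n) ^ (m - J.card)) := by
  classical
  have hsub : (univ.filter (fun e : Fin m → Fin n → Fin N => (un J e).card ≤ s)) ⊆
      (univ : Finset (Fin s → Fin N)).biUnion (fun g => Fintype.piFinset (fun i : Fin m =>
        if i ∈ J then Fintype.piFinset (fun _ : Fin n => univ.image g) else univ)) := by
    intro e he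
    rw [Finset.mem_filter] at he
    rw [Finset.mem_biUnion]
    -- an enumeration of the union
    have h1 : ∃ g : Fin s → Fin N, un J e ⊆ univ.image g := by
      let f : Fin (un J e).card ≃ (un J e) := ((un J e).equivFin).symm
      refine ⟨fun k => if h : (k : ℕ) < (un J e).card then (f ⟨k, h⟩ : Fin N) else ⟨0, hN⟩, ?_⟩
      intro y hy
      rw [Finset.mem_image]
      refine ⟨⟨(f.symm ⟨y, hy⟩ : ℕ), lt_of_lt_of_le (f.symm ⟨y, hy⟩).2 he.2⟩, mem_univ _, ?_⟩
      have h2 : (f.symm ⟨y, hy⟩ : ℕ) < (un J e).card := (f.symm ⟨y, hy⟩).2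
      rw [dif_pos h2]
      have h3 : (⟨(f.symm ⟨y, hy⟩ : ℕ), h2⟩ : Fin (un J e).card) = f.symm ⟨y, hy⟩ := rfl
      rw [h3, Equiv.apply_symm_apply]
    obtain ⟨g, hg⟩ := h1
    refine ⟨g, mem_univ _, ?_⟩
    rw [Fintype.mem_piFinset]
    intro i
    by_cases hi : i ∈ J
    · rw [if_pos hi, Fintype.mem_piFinset]
      intro k
      apply hg
      rw [un, Finset.mem_biUnion]
      exact ⟨i, hi, Finset.mem_image_of_mem _ (mem_univ k)⟩
    · rw [if_neg hi]
      exact mem_univ _
  refine (Finset.card_le_card hsub).trans ?_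
  refine (Finset.card_biUnion_le_card_mul _ _ ((s ^ n) ^ J.card * (N ^ n) ^ (m - J.card)) ?_).trans ?_
  · intro g _
    rw [Fintype.card_piFinset]
    have h1 : ∀ i : Fin m, (if i ∈ J then Fintype.piFinset (fun _ : Fin n => univ.image g)
        else (univ : Finset (Fin n → Fin N))).card ≤ if i ∈ J then s ^ n else N ^ n := by
      intro i
      split_ifs
      · rw [Fintype.card_piFinset, Finset.prod_const]
        have h2 : (univ.image g).card ≤ s := by
          refine Finset.card_image_le.trans ?_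
          simp
        simpa using Nat.pow_le_pow_left h2 n
      · simp
    refine (Finset.prod_le_prod' (fun i _ => h1 i)).trans ?_
    rw [Finset.prod_ite, Finset.prod_const, Finset.prod_const]
    have h2 : (univ.filter (fun i : Fin m => i ∈ J)) = J := by
      ext i
      simp
    have h3 : (univ.filter (fun i : Fin m => i ∉ J)) = Jᶜ := by
      ext i
      simp
    rw [h2, h3, Finset.card_compl, Fintype.card_fin]
  · simp

/-- the bad sets of indices -/
noncomputable def bd (L : ℕ) (e : Fin m → Fin n → Fin N) : Finset (Finset (Fin m)) := by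
  classical
  exact univ.filter (fun J => (1 ≤ J.card ∧ J.card ≤ L) ∧ (un J e).card ≤ (n - 1) * J.card)

theorem card_bad' (L : ℕ) (hn : 2 ≤ n) (J : Finset (Fin m)) (h1 : 1 ≤ J.card) (hL : J.card ≤ L)
    (hN : 1 ≤ N) :
    (univ.filter (fun e : Fin m → Fin n → Fin N => (un J e).card ≤ (n - 1) * J.card)).card *
      N ^ J.card ≤ N ^ (n * m) * ((n - 1) * L) ^ (n * L) := by
  have hJ : J.card ≤ m := by
    have := Finset.card_le_univ J
    simpa using this
  refine (Nat.mul_le_mul_right _ (card_bad J ((n - 1) * J.card) hN)).trans ?_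
  obtain ⟨a, ha⟩ : ∃ a, n = a + 1 := ⟨n - 1, by omega⟩
  obtain ⟨b, hb⟩ : ∃ b, m = J.card + b := ⟨m - J.card, by omega⟩
  have h2 : m - J.card = b := by omega
  have h3 : n - 1 = a := by omega
  rw [h2, h3]
  have h4 : N ^ (a * J.card) * (((a * J.card) ^ n) ^ J.card * (N ^ n) ^ b) * N ^ J.card =
      N ^ (n * m) * (a * J.card) ^ (n * J.card) := by
    rw [← pow_mul, ← pow_mul]
    have h5 : n * m = a * J.card + n * b + J.card := by
      calc n * m = n * (J.card + b) := by rw [← hb]
        _ = _ := by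
          rw [ha]
          ring
    rw [h5, pow_add, pow_add]
    ring
  rw [h4]
  apply Nat.mul_le_mul_left
  have h6 : 1 ≤ a * L := Nat.mul_pos (by omega) (by omega)
  calc (a * J.card) ^ (n * J.card) ≤ (a * L) ^ (n * J.card) :=
        Nat.pow_le_pow_left (Nat.mul_le_mul_left a hL) _
    _ ≤ (a * L) ^ (n * L) := Nat.pow_le_pow_right h6 (Nat.mul_le_mul_left n hL)

theorem sum_bd (L K : ℕ) (hn : 2 ≤ n) (hN : 1 ≤ N) (hm : m = K * N) :
    ∑ e : Fin m → Fin n → Fin N, ((bd L e).card : ℝ) ≤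
      (N : ℝ) ^ (n * m) * ((((n - 1) * L) ^ (n * L) : ℕ) * ∑ j ∈ Finset.Icc 1 L, (K : ℝ) ^ j) := by
  classical
  have h1 : ∀ e : Fin m → Fin n → Fin N, ((bd L e).card : ℝ) = ∑ J : Finset (Fin m),
      if (1 ≤ J.card ∧ J.card ≤ L) ∧ (un J e).card ≤ (n - 1) * J.card then (1 : ℝ) else 0 := by
    intro e
    rw [bd, Finset.card_filter]
    push_cast
    rfl
  rw [Finset.sum_congr rfl (fun e _ => h1 e), Finset.sum_comm]
  set S : ℝ := ((((n - 1) * L) ^ (n * L) : ℕ) : ℝ) with hS
  have hS0 : 0 ≤ S := Nat.cast_nonneg _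
  have hN' : (0 : ℝ) < N := by exact_mod_cast hN
  have h2 : ∀ J : Finset (Fin m), ∑ e : Fin m → Fin n → Fin N,
      (if (1 ≤ J.card ∧ J.card ≤ L) ∧ (un J e).card ≤ (n - 1) * J.card then (1 : ℝ) else 0) ≤
      (N : ℝ) ^ (n * m) * S *
        (fun j : ℕ => if 1 ≤ j ∧ j ≤ L then (1 / (N : ℝ)) ^ j else 0) J.card := by
    intro J
    by_cases hJ : 1 ≤ J.card ∧ J.card ≤ L
    · have h3 := card_bad' (N := N) L hn J hJ.1 hJ.2 hN
      have h4 : ∑ e : Fin m → Fin n → Fin N,
          (if (1 ≤ J.card ∧ J.card ≤ L) ∧ (un J e).card ≤ (n - 1) * J.card then (1 : ℝ) else 0) =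
          ((univ.filter (fun e : Fin m → Fin n → Fin N =>
            (un J e).card ≤ (n - 1) * J.card)).card : ℝ) := by
        rw [Finset.card_filter]
        push_cast
        apply Finset.sum_congr rfl
        intro e _
        simp [hJ]
      rw [h4]
      simp only
      rw [if_pos hJ]
      have h5 : ((univ.filter (fun e : Fin m → Fin n → Fin N =>
          (un J e).card ≤ (n - 1) * J.card)).card : ℝ) * (N : ℝ) ^ J.card ≤
          (N : ℝ) ^ (n * m) * S := by
        rw [hS]
        exact_mod_cast h3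
      rw [one_div, inv_pow, ← div_eq_mul_inv, le_div_iff₀ (pow_pos hN' _)]
      exact h5
    · simp only
      rw [if_neg hJ, mul_zero]
      apply le_of_eq
      apply Finset.sum_eq_zero
      intro e _
      rw [if_neg (fun h => hJ h.1)]
  refine (Finset.sum_le_sum (fun J _ => h2 J)).trans ?_
  rw [← Finset.mul_sum]
  have h6 : ∑ J : Finset (Fin m),
      (fun j : ℕ => if 1 ≤ j ∧ j ≤ L then (1 / (N : ℝ)) ^ j else 0) J.card ≤
      ∑ j ∈ Finset.Icc 1 L, (K : ℝ) ^ j := by
    have h7 := Finset.sum_powerset_apply_card (α := ℝ)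
      (fun j : ℕ => if 1 ≤ j ∧ j ≤ L then (1 / (N : ℝ)) ^ j else 0)
      (x := (univ : Finset (Fin m)))
    rw [Finset.powerset_univ] at h7
    rw [h7]
    have h8 : ∀ j : ℕ, (univ : Finset (Fin m)).card.choose j •
        (fun j : ℕ => if 1 ≤ j ∧ j ≤ L then (1 / (N : ℝ)) ^ j else 0) j ≤
        if 1 ≤ j ∧ j ≤ L then (K : ℝ) ^ j else 0 := by
      intro j
      simp only
      by_cases hj : 1 ≤ j ∧ j ≤ L
      · rw [if_pos hj, if_pos hj, nsmul_eq_mul]
        have h9 : (((univ : Finset (Fin m)).card.choose j : ℕ) : ℝ) ≤ (m : ℝ) ^ j := by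
          have := Nat.choose_le_pow m j
          simp only [Finset.card_univ, Fintype.card_fin]
          exact_mod_cast this
        have h10 : (m : ℝ) = K * N := by
          rw [hm]
          push_cast
          ring
        calc _ ≤ (m : ℝ) ^ j * (1 / (N : ℝ)) ^ j :=
              mul_le_mul_of_nonneg_right h9 (by positivity)
          _ = (K : ℝ) ^ j := by
            rw [← mul_pow, h10]
            congr 1
            field_simp
      · rw [if_neg hj, if_neg hj, smul_zero]
    refine (Finset.sum_le_sum (fun j _ => h8 j)).trans ?_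
    rw [← Finset.sum_filter]
    apply Finset.sum_le_sum_of_subset_of_nonneg
    · intro j hj
      rw [Finset.mem_filter] at hj
      rw [Finset.mem_Icc]
      exact hj.2
    · intro j _ _
      positivity
  calc (N : ℝ) ^ (n * m) * S * ∑ J : Finset (Fin m),
      (fun j : ℕ => if 1 ≤ j ∧ j ≤ L then (1 / (N : ℝ)) ^ j else 0) J.card ≤
      (N : ℝ) ^ (n * m) * S * ∑ j ∈ Finset.Icc 1 L, (K : ℝ) ^ j :=
        mul_le_mul_of_nonneg_left h6 (by positivity)
    _ = _ := by ring

/-- the good family exists -/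
theorem exists_family (n L : ℕ) (hn : 2 ≤ n) : ∃ (N m z : ℕ) (e : Fin m → Fin n → Fin N),
    (bd L e).card ≤ z ∧ ∀ χ : Fin N → Bool, z < nc χ e := by
  classical
  -- the number `K`
  have hq0 : (0 : ℝ) < 1 - (1 / 2) ^ (n + 1) := by
    have : ((1 / 2 : ℝ)) ^ (n + 1) < 1 := pow_lt_one₀ (by norm_num) (by norm_num) (by omega)
    linarith
  have hq1 : (1 - (1 / 2) ^ (n + 1) : ℝ) < 1 := by
    have : (0 : ℝ) < ((1 / 2 : ℝ)) ^ (n + 1) := by positivity
    linarith
  obtain ⟨K, hK⟩ := exists_pow_lt_of_lt_one (show (0 : ℝ) < 1 / 4 by norm_num) hq1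
  set D : ℕ := ((n - 1) * L) ^ (n * L) * ∑ j ∈ Finset.Icc 1 L, K ^ j with hD
  set z : ℕ := 2 * D + 1 with hz
  set M : ℕ := z + 2 with hM
  set N : ℕ := 2 * M with hN
  set m : ℕ := K * N with hm
  have hN1 : 1 ≤ N := by omega
  have hN' : (0 : ℝ) < (N : ℝ) ^ (n * m) := by
    have : (0 : ℝ) < N := by exact_mod_cast hN1
    positivity
  -- the two sums
  have h1 := sum_bd (n := n) (N := N) (m := m) L K hn hN1 hm
  have h2 : ∀ χ : Fin N → Bool, ∑ e : Fin m → Fin n → Fin N, (2 : ℝ) ^ z * (1 / 2) ^ (nc χ e) ≤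
      (2 : ℝ) ^ z * ((N : ℝ) ^ (n * m) * (1 / 4) ^ N) := by
    intro χ
    rw [← Finset.mul_sum]
    apply mul_le_mul_of_nonneg_left _ (by positivity)
    refine (sum_nc M hN χ).trans ?_
    rw [mul_pow, ← pow_mul]
    apply mul_le_mul_of_nonneg_left _ hN'.le
    rw [hm, pow_mul]
    exact pow_le_pow_left₀ (by positivity) hK.le _
  have h3 : ∑ e : Fin m → Fin n → Fin N, (((bd L e).card : ℝ) / z +
      ∑ χ : Fin N → Bool, (2 : ℝ) ^ z * (1 / 2) ^ (nc χ e)) <
      ∑ _e : Fin m → Fin n → Fin N, (1 : ℝ) := by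
    rw [Finset.sum_add_distrib, ← Finset.sum_div, Finset.sum_comm]
    have h4 : ∑ χ : Fin N → Bool, ∑ e : Fin m → Fin n → Fin N,
        (2 : ℝ) ^ z * (1 / 2) ^ (nc χ e) ≤
        (2 : ℝ) ^ N * ((2 : ℝ) ^ z * ((N : ℝ) ^ (n * m) * (1 / 4) ^ N)) := by
      refine (Finset.sum_le_sum (fun χ _ => h2 χ)).trans ?_
      rw [Finset.sum_const, nsmul_eq_mul]
      simp
    have h5 : (2 : ℝ) ^ N * ((2 : ℝ) ^ z * ((N : ℝ) ^ (n * m) * (1 / 4) ^ N)) ≤
        (N : ℝ) ^ (n * m) * (1 / 4) := by
      have h6 : (2 : ℝ) ^ N * (2 : ℝ) ^ z * (1 / 4) ^ N ≤ 1 / 4 := by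
        have h7 : (4 : ℝ) ^ N = 2 ^ N * 2 ^ N := by
          rw [← mul_pow]
          norm_num
        rw [one_div, inv_pow, h7]
        have h8 : (2 : ℝ) ^ N * 2 ^ z * (2 ^ N * 2 ^ N)⁻¹ = 2 ^ z / 2 ^ N := by
          field_simp
        rw [h8, div_le_iff₀ (by positivity)]
        have h9 : N = z + (z + 4) := by omega
        rw [h9, pow_add (2 : ℝ) z (z + 4)]
        have h10 : (4 : ℝ) ≤ 2 ^ (z + 4) := by
          calc (4 : ℝ) ≤ 2 ^ 4 := by norm_num
            _ ≤ 2 ^ (z + 4) := pow_le_pow_right₀ (by norm_num) (by omega)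
        have h11 : (0 : ℝ) < 2 ^ z := by positivity
        nlinarith
      calc _ = (N : ℝ) ^ (n * m) * ((2 : ℝ) ^ N * (2 : ℝ) ^ z * (1 / 4) ^ N) := by ring
        _ ≤ _ := mul_le_mul_of_nonneg_left h6 hN'.le
    have h12 : (∑ e : Fin m → Fin n → Fin N, ((bd L e).card : ℝ)) / z ≤
        (N : ℝ) ^ (n * m) * (1 / 2) := by
      have hz0 : (0 : ℝ) < z := by
        rw [hz]
        positivity
      rw [div_le_iff₀ hz0]
      refine h1.trans ?_
      have h13 : ((((n - 1) * L) ^ (n * L) : ℕ) : ℝ) * ∑ j ∈ Finset.Icc 1 L, (K : ℝ) ^ j = D := by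
        rw [hD]
        push_cast
        rfl
      rw [h13]
      have h14 : (z : ℝ) = 2 * D + 1 := by
        rw [hz]
        push_cast
        ring
      rw [h14, mul_assoc]
      apply mul_le_mul_of_nonneg_left _ hN'.le
      linarith
    have h15 : ∑ _e : Fin m → Fin n → Fin N, (1 : ℝ) = (N : ℝ) ^ (n * m) := by
      rw [Finset.sum_const, nsmul_eq_mul, mul_one]
      simp [pow_mul]
    rw [h15]
    linarith
  obtain ⟨e, _, he⟩ := Finset.exists_lt_of_sum_lt h3
  have h4 : 0 ≤ ((bd L e).card : ℝ) / z := by positivity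
  have h5 : ∀ χ : Fin N → Bool, 0 ≤ (2 : ℝ) ^ z * (1 / 2) ^ (nc χ e) := fun χ => by positivity
  refine ⟨N, m, z, e, ?_, ?_⟩
  · have h6 : ((bd L e).card : ℝ) / z < 1 := by
      have := Finset.sum_nonneg (fun χ (_ : χ ∈ (univ : Finset (Fin N → Bool))) => h5 χ)
      linarith
    have hz0 : (0 : ℝ) < z := by
      rw [hz]
      positivity
    rw [div_lt_one hz0] at h6
    exact_mod_cast h6.le
  · intro χ
    have h6 : (2 : ℝ) ^ z * (1 / 2) ^ (nc χ e) < 1 := by
      have := Finset.single_le_sum (fun χ (_ : χ ∈ (univ : Finset (Fin N → Bool))) => h5 χ)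
        (mem_univ χ)
      linarith
    by_contra hcon
    push Not at hcon
    have h7 : (1 : ℝ) ≤ (2 : ℝ) ^ z * (1 / 2) ^ (nc χ e) := by
      rw [one_div, inv_pow, ← div_eq_mul_inv, le_div_iff₀ (by positivity), one_mul]
      exact pow_le_pow_right₀ (by norm_num) hcon
    linarith

end count

/-- HYP -/
theorem hyp : HypStmt := by
  classical
  intro n L hn
  obtain ⟨N, m, z, e, h1, h2⟩ := exists_family n L hn
  -- one element of every bad set
  let pick : Finset (Fin m) → Finset (Fin m) := fun J =>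
    if h : J.Nonempty then {h.choose} else ∅
  let Z : Finset (Fin m) := (bd L e).biUnion pick
  have hZ : Z.card ≤ z := by
    refine (Finset.card_biUnion_le_card_mul _ _ 1 ?_).trans ?_
    · intro J _
      simp only [pick]
      split_ifs <;> simp
    · rw [mul_one]
      exact h1
  refine ⟨Fin N, {i : Fin m // i ∉ Z}, inferInstance, inferInstance, fun i => e i.1, ?_, ?_⟩
  · intro D hD hDL
    let J : Finset (Fin m) := D.toFinset.image Subtype.val
    have hJ : J.card = D.ncard := by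
      rw [Finset.card_image_of_injective _ Subtype.val_injective, Set.ncard_eq_toFinset_card']
    have hJ1 : 1 ≤ J.card := by
      rw [hJ]
      exact (Set.ncard_pos (Set.toFinite D)).2 hD
    have hun : {y | ∃ i ∈ D, ∃ k, e i.1 k = y}.ncard = (un J e).card := by
      have h3 : {y | ∃ i ∈ D, ∃ k, e i.1 k = y} = ((un J e : Finset (Fin N)) : Set (Fin N)) := by
        ext y
        simp only [Set.mem_ofPred_eq, Finset.mem_coe, un, Finset.mem_biUnion, J,
          Finset.mem_image, Set.mem_toFinset, Finset.mem_univ, true_and]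
        constructor
        · rintro ⟨i, hi, k, hk⟩
          exact ⟨i.1, ⟨i, hi, rfl⟩, k, hk⟩
        · rintro ⟨a, ⟨i, hi, rfl⟩, k, hk⟩
          exact ⟨i, hi, k, hk⟩
      rw [h3, Set.ncard_coe_finset]
    show (n - 1) * D.ncard + 1 ≤ {y | ∃ i ∈ D, ∃ k, e i.1 k = y}.ncard
    rw [hun, ← hJ]
    by_contra hcon
    have h3 : J ∈ bd L e := by
      rw [bd, Finset.mem_filter]
      exact ⟨mem_univ _, ⟨hJ1, by rw [hJ]; exact hDL⟩, by omega⟩
    have hne : J.Nonempty := Finset.card_pos.1 hJ1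
    have h4 : hne.choose ∈ Z := by
      rw [Finset.mem_biUnion]
      refine ⟨J, h3, ?_⟩
      simp only [pick]
      rw [dif_pos hne]
      exact Finset.mem_singleton_self _
    have h5 : hne.choose ∈ J := hne.choose_spec
    rw [Finset.mem_image] at h5
    obtain ⟨i, _, hi⟩ := h5
    exact i.2 (hi ▸ h4)
  · intro χ
    have h3 := h2 χ
    have h4 : ∃ i ∈ univ.filter (fun i => ∃ c, ∀ k, χ (e i k) = c), i ∉ Z := by
      by_contra hcon
      push Not at hcon
      have h5 := Finset.card_le_card (show univ.filter (fun i => ∃ c, ∀ k, χ (e i k) = c) ⊆ Z from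
        fun i hi => hcon i hi)
      rw [nc] at h3
      omega
    obtain ⟨i, hi, hiZ⟩ := h4
    rw [Finset.mem_filter] at hi
    obtain ⟨c, hc⟩ := hi.2
    exact ⟨⟨i, hiZ⟩, c, hc⟩

end Pool.Agent.SEP60.H67
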